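import Pool.Agent.Helper84.OB.Stmts

/-! # Row DP -/

set_option autoImplicit false

universe u

open Set Pool.Agent.Helper84.BT Pool.Agent.Helper84.OB
open scoped Matroid

namespace Pool.Agent.Helper90.OB

theorem st_DP : ST_DP.{u} := by
  intro α _ M X Y C O x hPr hCX hCK hCr hCc hCs hOC hxO hx
  have hXE : X ⊆ M.E := hPr.hX.subset_ground
  have hYE : Y ⊆ M.E := hPr.hY.subset_ground
  obtain ⟨O', hO'O, hmin⟩ := Set.Finite.exists_le_minimal
    (s := {O : Set α | ∃ x ∈ O, x ∈ M.closure ((O \ {x}) ∪ Y)}) (Set.toFinite _)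
    (a := O) ⟨x, hxO, hx⟩
  obtain ⟨x', hx'O, hx'⟩ := hmin.1
  have hO'C : O' ⊆ C := (show O' ⊆ O from hO'O).trans hOC
  have hO'X : O' ⊆ X := hO'C.trans hCX
  have hO'Y : ∀ z ∈ O', z ∉ Y := fun z hz hzY =>
    Set.disjoint_left.1 hCK (hO'C hz) ⟨hO'X hz, hzY⟩
  -- all elements
  have hall : ∀ y ∈ O', y ∈ M.closure ((O' \ {y}) ∪ Y) := by
    intro y hy
    by_cases hyx : y = x'
    · rw [hyx]
      exact hx'
    have h1 : x' ∉ M.closure ((O' \ {y}) \ {x'} ∪ Y) := by
      intro h
      have h2 := hmin.2 (y := O' \ {y}) ⟨x', ⟨hx'O, fun h => hyx h.symm⟩, h⟩ sdiff_subset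
      exact (h2 hy).2 rfl
    have h2 : (O' \ {x'}) ∪ Y = insert y ((O' \ {y}) \ {x'} ∪ Y) := by
      ext z
      simp only [mem_union, mem_sdiff, mem_singleton_iff, mem_insert_iff]
      constructor
      · rintro (⟨h3, h4⟩ | h3)
        · by_cases hzy : z = y
          · exact Or.inl hzy
          · exact Or.inr (Or.inl ⟨⟨h3, hzy⟩, h4⟩)
        · exact Or.inr (Or.inr h3)
      · rintro (h3 | ⟨⟨h3, -⟩, h4⟩ | h3)
        · rw [h3]
          exact Or.inl ⟨hy, hyx⟩
        · exact Or.inl ⟨h3, h4⟩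
        · exact Or.inr h3
    rw [h2] at hx'
    have h3 := (Matroid.closure_exchange (M := M) ⟨hx', h1⟩).1
    have h4 : insert x' ((O' \ {y}) \ {x'} ∪ Y) = (O' \ {y}) ∪ Y := by
      ext z
      simp only [mem_union, mem_sdiff, mem_singleton_iff, mem_insert_iff]
      constructor
      · rintro (h3 | ⟨⟨h3, h5⟩, -⟩ | h3)
        · rw [h3]
          exact Or.inl ⟨hx'O, fun h => hyx h.symm⟩
        · exact Or.inl ⟨h3, h5⟩
        · exact Or.inr h3
      · rintro (⟨h3, h4⟩ | h3)
        · by_cases hzx : z = x'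
          · exact Or.inl hzx
          · exact Or.inr (Or.inl ⟨⟨h3, h4⟩, hzx⟩)
        · exact Or.inr (Or.inr h3)
    rwa [h4] at h3
  have hcyc : IsCyclic M (O' ∪ Y) := by
    rw [isCyclic_iff]
    intro z hz
    rcases hz with hz | hz
    · refine M.closure_subset_closure ?_ (hall z hz)
      rintro w (hw | hw)
      · exact ⟨Or.inl hw.1, hw.2⟩
      · refine ⟨Or.inr hw, ?_⟩
        rintro rfl
        exact hO'Y _ hz hw
    · refine M.closure_subset_closure ?_ (isCyclic_iff.1 hPr.hY.isCyclic z hz)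
      rintro w ⟨hw, hw2⟩
      exact ⟨Or.inr hw, hw2⟩
  have hOYE : O' ∪ Y ⊆ M.E := union_subset (hO'X.trans hXE) hYE
  obtain ⟨W, hWd⟩ : ∃ W, W = M.closure (O' ∪ Y) := ⟨_, rfl⟩
  have hOYW : O' ∪ Y ⊆ W := by
    rw [hWd]
    exact M.subset_closure _ hOYE
  have hWc : IsCyclicFlat M W := by
    rw [hWd]
    exact hcyc.isCyclicFlat_closure
  have hrW : rk M W = rk M (O' ∪ Y) := by rw [hWd, rk_closure]
  refine ⟨W, hWc, subset_union_right.trans hOYW, ?_, ?_⟩
  · rw [hWd]
    exact M.closure_subset_closure (union_subset_union_left Y hO'O)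
  by_contra hcon
  push Not at hcon
  have hXY : rk M (X ∪ W) = rk M (X ∪ Y) := by
    apply le_antisymm
    · rw [← rk_closure M (X ∪ Y)]
      refine rk_mono M (union_subset (subset_union_left.trans
        (M.subset_closure _ (union_subset hXE hYE))) ?_)
      rw [hWd]
      exact M.closure_subset_closure (union_subset_union_left Y hO'X)
    · exact rk_mono M (union_subset_union_right X (subset_union_right.trans hOYW))
  have h1 := hPr.dmin X W hPr.hX hWc (by rw [hXY]; exact hcon)
  have hpos := hPr.pos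
  -- the small set
  have h2 : rk M (O' ∪ (X ∩ Y)) ≤ rk M (X ∩ W) := rk_mono M (union_subset
    (subset_inter hO'X (subset_union_left.trans hOYW))
    (inter_subset_inter_right X (subset_union_right.trans hOYW)))
  have h3 : rk M (O' ∪ Y) + 1 ≤ rk M Y + O'.ncard := by
    have h4 := hall x' hx'O
    rw [mem_closure_iff_rk M (hXE (hO'X hx'O))] at h4
    have h5 : insert x' ((O' \ {x'}) ∪ Y) = O' ∪ Y := by
      rw [← insert_union, insert_sdiff_singleton, insert_eq_of_mem hx'O]
    rw [h5] at h4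
    have h6 := rk_union_le_add_ncard M Y (O' \ {x'})
    rw [union_comm] at h6
    have h7 := Set.ncard_sdiff_singleton_add_one hx'O
    omega
  by_cases hOC' : O' = C
  · have h4 : X ⊆ W := by
      have h5 := subset_closure_of_rk M (X := C ∪ (X ∩ Y)) (Y := X)
        (union_subset hCX inter_subset_left) hXE hCr.ge
      refine h5.trans ?_
      rw [hWd, hOC']
      exact M.closure_subset_closure (union_subset_union_right C inter_subset_right)
    rw [inter_eq_self_of_subset_left h4] at h1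
    have h5 : rk M W ≤ rk M (X ∪ Y) := by
      rw [← hXY]
      exact rk_mono M subset_union_right
    omega
  · obtain ⟨c, hcC, hcO⟩ := exists_of_ssubset (hO'C.ssubset_of_ne hOC')
    have h4 := hCs c hcC
    have h5 : O' ⊆ C \ {c} := fun z hz => ⟨hO'C hz, by rintro rfl; exact hcO hz⟩
    have h6 := rk_union_le_add_ncard M (O' ∪ (X ∩ Y)) ((C \ {c}) \ O')
    have h7 : O' ∪ (X ∩ Y) ∪ ((C \ {c}) \ O') = (C \ {c}) ∪ (X ∩ Y) := by
      rw [union_right_comm, union_sdiff_cancel h5]
    rw [h7, h4] at h6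
    have h8 := Set.ncard_sdiff_add_ncard_of_subset h5
    have h9 := Set.ncard_sdiff_singleton_add_one hcC
    omega

end Pool.Agent.Helper90.OB
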